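import Mathlib
import Pool.Agent.H594.WI.Multi

/-!
# Rémond's inequality for the values of functions, modulo the division group

Let `Γ` be a finitely generated group of nonzero algebraic numbers, `Γ_div` its division group,
`h` the absolute height, `D_Γ(α)` the degree of `α` over `ℚ(Γ_div)`, and let `z` be an algebraic
number of degree at most `d` over a number field `K`.

(1) Let `f = A / B` be a rational function with algebraic coefficients of degree `M`, with zeros of
order at most `m` and poles of order at most `m'` on the projective line. Then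
`h(α) ≥ (M - 2 d m m' / (m + m') - ε) h(z) - C` for all `α` in `f(z) Γ_div`, where `C` does not
depend on `z` and `α`. For a polynomial `A` and algebraic integers `z` one has
`h(α) ≥ (deg A - (2 d - 1) m - ε) h(z) - C` for all `α` in `A(z) Γ_div`.

(2) So for `κ < M - 2 d m m' / (m + m')` and any `T` there are only finitely many `z` such that
`D_Γ(α) h(α) ≤ κ h(z) + T` for some `α` in `f(z) Γ_div`; for the union of all the cosets
`f(z) Γ_div` Rémond's inequality `D_Γ(α) h(α) ≥ c` holds with a right hand side that tends to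
infinity with `h(z)`.

(3) Let `f_1, …, f_k` be rational functions all of whose zeros and poles in `ℂ` are simple and
different from each other, `N_j` the number of those of `f_j`. If `α ^ r = γ f_1(z) ^ (e_1) …
f_k(z) ^ (e_k)` with `γ` in `Γ_div` and `|e_j| ≤ m` for all `j`, then
`r h(α) ≥ (∑ |e_j| N_j / 2 - (d + ε) m) h(z) - C m`, and one can replace `d` by `d - 1 / 2` if `z` is
an algebraic integer. Hence if `N_j ≥ N` for all `j`, and `κ < N / 2 - d`, then for all but finitely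
many `z` the height on the division group of the group generated by `Γ` and the `f_j(z)`
dominates the norm `κ h(z) max |e_j| / r` on the quotient by `Γ_div`, and the numbers in the group
generated by `Γ_div` and the `f_j(z)` which are not in `Γ_div` satisfy
`D_Γ(α) h(α) > κ h(z) + T`.

The proof uses Wirsing's theorem (a theorem of the library), see `Pool.Agent.H594.WI.multi_height`.
-/

set_option autoImplicit false

namespace Pool.Agent.Results.MP_f61260_nt.ValuesOfFunctions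

open Pool.Agent.H594.ML
open Pool.Agent.H594.BD (degLe_alg)
open Pool.Agent.Helper259.AbsHt (Qbar)
open Pool.Agent.Y215.SK (DivHull h1 h1_val h1_nonneg h1_inv h1_pow)

/-- the field of algebraic numbers -/
abbrev Qb := AlgebraicClosure ℚ

/-- the division group `Γ_div`: all `γ` with a positive power in `Γ` -/
def divGrp (Γ : Subgroup Qbˣ) : Set Qbˣ := {γ | ∃ n : ℕ, 0 < n ∧ γ ^ n ∈ Γ}

/-- the field `ℚ(Γ_div)` -/
noncomputable def divField (Γ : Subgroup Qbˣ) : IntermediateField ℚ Qb :=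
  IntermediateField.adjoin ℚ {x | ∃ γ ∈ divGrp Γ, x = (γ : Qb)}

/-- the degree `D_Γ(α)` of `α` over `ℚ(Γ_div)` -/
noncomputable def deg (Γ : Subgroup Qbˣ) (α : Qb) : ℕ := (minpoly (divField Γ) α).natDegree

/-- the absolute logarithmic Weil height -/
noncomputable def h (α : Qb) : ℝ := NumberField.absLogHeight₁ α

/-- `z` is algebraic of degree at most `d` over the field `K` -/
def DegreeLe (K : IntermediateField ℚ Qb) (d : ℕ) (z : Qb) : Prop :=
  ∃ P : Polynomial Qb, P ≠ 0 ∧ P.natDegree ≤ d ∧ (∀ i, P.coeff i ∈ K) ∧ P.eval z = 0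

/-- `α` is in `f(z) Γ_div`, where `f = A / B` has neither a zero nor a pole at `z` -/
def IsMultiple (Γ : Subgroup Qbˣ) (A B : Polynomial Qb) (z α : Qb) : Prop :=
  A.eval z ≠ 0 ∧ B.eval z ≠ 0 ∧ ∃ γ ∈ divGrp Γ, α = A.eval z / B.eval z * (γ : Qb)

/-- `α ^ r` is in `f_1(z) ^ (e_1) … f_k(z) ^ (e_k) Γ_div`, where the `f_j = A_j / B_j` have neither
zeros nor poles at `z` -/
def IsMonomial {k : ℕ} (Γ : Subgroup Qbˣ) (A B : Fin k → Polynomial Qb) (z : Qb)
    (e : Fin k → ℤ) (r : ℕ) (α : Qb) : Prop :=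
  (∀ j, (A j).eval z ≠ 0 ∧ (B j).eval z ≠ 0) ∧
    ∃ γ ∈ divGrp Γ, α ^ r = (∏ j, ((A j).eval z / (B j).eval z) ^ e j) * (γ : Qb)

/-- the zeros of the `A_j` and `B_j` are simple and different from each other -/
def Separate {k : ℕ} (A B : Fin k → Polynomial Qb) : Prop :=
  ∀ a, ∑ j, ((A j).rootMultiplicity a + (B j).rootMultiplicity a) ≤ 1

/-- the absolute height of Mathlib and of the library -/
theorem abs_eq (a : Qb) : h a = h1 a := by
  have hx : IsIntegral ℚ a := (qbar_alg.isAlgebraic a).isIntegral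
  have : FiniteDimensional ℚ (IntermediateField.adjoin ℚ {a}) :=
    IntermediateField.adjoin.finiteDimensional hx
  have : NumberField (IntermediateField.adjoin ℚ {a}) := {}
  have h2 := h1_val (IntermediateField.adjoin ℚ {a}) (IntermediateField.AdjoinSimple.gen ℚ a)
  rw [IntermediateField.AdjoinSimple.coe_gen] at h2
  rw [h2]
  unfold h NumberField.absLogHeight₁ NumberField.absMulHeight₁
  rw [dif_pos hx, Real.log_rpow (Height.mulHeight₁_pos _)]
  unfold Height.logHeight₁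
  rw [div_eq_inv_mul]

theorem h_nonneg (a : Qb) : 0 ≤ h a := by
  rw [abs_eq]
  exact h1_nonneg a

theorem deg_pos (Γ : Subgroup Qbˣ) (α : Qb) : 1 ≤ deg Γ α := by
  have h1 : IsIntegral ℚ α := (qbar_alg.isAlgebraic α).isIntegral
  have h2 : IsIntegral (divField Γ) α := h1.tower_top
  exact minpoly.natDegree_pos h2

theorem le_deg_mul (Γ : Subgroup Qbˣ) (α : Qb) : h α ≤ deg Γ α * h α := by
  have h1 : (1 : ℝ) ≤ deg Γ α := by exact_mod_cast deg_pos Γ α
  nlinarith [h_nonneg α]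

section transfer

variable (K : IntermediateField ℚ Qb) [FiniteDimensional ℚ K]

theorem fd_map : FiniteDimensional ℚ (K.map sgA) :=
  (K.equivMap sgA).toLinearEquiv.finiteDimensional

theorem alg_map (P : Polynomial Qb) (i : ℕ) : IsAlgebraic ℚ ((P.map sg).coeff i) := by
  rw [Polynomial.coeff_map]
  exact sg_alg _

theorem degLe_map {K : IntermediateField ℚ Qb} {d : ℕ} {z : Qb} (hz : DegreeLe K d z) :
    sg z ∈ Pool.Agent.H594.BD.DegLe (K.map sgA) d := by
  obtain ⟨P, hP, hPd, hPK, hPz⟩ := hz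
  refine ⟨P.map sg, (Polynomial.map_ne_zero_iff sg_inj).2 hP, ?_, fun i => ?_, ?_⟩
  · rw [Polynomial.natDegree_map]
    exact hPd
  · rw [Polynomial.coeff_map]
    exact ⟨P.coeff i, hPK i, rfl⟩
  · rw [Polynomial.eval_map_apply, hPz, map_zero]

theorem mult_map (P : Polynomial Qb) (hP : P ≠ 0) (m : ℕ) (hm : ∀ a, P.rootMultiplicity a ≤ m)
    (a : ℂ) : (P.map sg).rootMultiplicity a ≤ m := by
  by_cases ha : IsAlgebraic ℚ a
  · obtain ⟨a', rfl⟩ := exists_sg ha
    rw [← Polynomial.eq_rootMultiplicity_map sg_inj]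
    exact hm a'
  · rw [Polynomial.rootMultiplicity_eq_zero]
    · exact Nat.zero_le _
    · intro hr
      exact ha (root_alg (alg_map P) ((Polynomial.mem_roots
        ((Polynomial.map_ne_zero_iff sg_inj).2 hP)).2 hr))

/-- Northcott's theorem -/
theorem northcott (d : ℕ) (R : ℝ) : {z : Qb | DegreeLe K d z ∧ h z ≤ R}.Finite := by
  have hfd := fd_map K
  refine ((Pool.Agent.H594.WI.northcott_cx (K.map sgA) d R).preimage (f := sg)
    sg_inj.injOn).subset ?_
  rintro z ⟨hz, hR⟩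
  refine ⟨degLe_map hz, ?_⟩
  rw [Pool.Agent.H594.WI.ht_sg, ← abs_eq]
  exact hR

end transfer

/-- one rational function -/
theorem one (Γ : Subgroup Qbˣ) (hΓ : Γ.FG) (K : IntermediateField ℚ Qb)
    [FiniteDimensional ℚ K] (d : ℕ) (hd : 1 ≤ d) (A B : Polynomial Qb) (hA : A ≠ 0) (hB : B ≠ 0)
    (hAB : IsCoprime A B) (m m' : ℕ) (hm0 : 1 ≤ m) (hm0' : 1 ≤ m')
    (hm : ∀ a, A.rootMultiplicity a ≤ m) (hmi : B.natDegree - A.natDegree ≤ m)
    (hm' : ∀ a, B.rootMultiplicity a ≤ m') (hmi' : A.natDegree - B.natDegree ≤ m')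
    (ε : ℝ) (hε : 0 < ε) :
    ∃ C : ℝ, ∀ z α : Qb, DegreeLe K d z → IsMultiple Γ A B z α →
      (max (A.natDegree : ℝ) B.natDegree - 2 * d * (m * m' / (m + m')) - ε) * h z - C ≤ h α := by
  have hfd := fd_map K
  obtain ⟨C, -, hC⟩ := Pool.Agent.H594.WI.one_height Γ hΓ (K.map sgA) d hd (A.map sg) (B.map sg)
    (alg_map A) (alg_map B) ((Polynomial.map_ne_zero_iff sg_inj).2 hA)
    ((Polynomial.map_ne_zero_iff sg_inj).2 hB)
    (by
      have := hAB.map (Polynomial.mapRingHom sg)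
      simpa using this) m m' hm0 hm0' (mult_map A hA m hm)
    (by simpa only [Polynomial.natDegree_map] using hmi) (mult_map B hB m' hm')
    (by simpa only [Polynomial.natDegree_map] using hmi') ε hε
  refine ⟨C, fun z α hz ⟨hAz, hBz, γ, hγ, hα⟩ => ?_⟩
  have hγ0 : (γ : Qb) ≠ 0 := γ.ne_zero
  have h3 := hC (sg z) (degLe_map hz)
    (by rw [Polynomial.eval_map_apply]; exact (map_ne_zero sg).2 hAz)
    (by rw [Polynomial.eval_map_apply]; exact (map_ne_zero sg).2 hBz) γ⁻¹ (by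
      obtain ⟨n, hn, hγn⟩ := hγ
      refine ⟨n, hn, ?_⟩
      show (γ⁻¹) ^ n ∈ Γ
      rw [inv_pow]
      exact Γ.inv_mem hγn) (sg α⁻¹) (by
      rw [Polynomial.eval_map_apply, Polynomial.eval_map_apply, ← map_div₀, ← map_mul, hα]
      congr 1
      rw [Units.val_inv_eq_inv_val]
      field_simp)
  simp only [Polynomial.natDegree_map] at h3
  rw [Pool.Agent.H594.WI.ht_sg, Pool.Agent.H594.WI.ht_sg, h1_inv, ← abs_eq, ← abs_eq] at h3
  exact h3

/-- polynomials at algebraic integers -/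
theorem pol (Γ : Subgroup Qbˣ) (hΓ : Γ.FG) (K : IntermediateField ℚ Qb)
    [FiniteDimensional ℚ K] (d : ℕ) (hd : 1 ≤ d) (A : Polynomial Qb) (hA : A ≠ 0)
    (m : ℕ) (hm0 : 1 ≤ m) (hm : ∀ a, A.rootMultiplicity a ≤ m) (ε : ℝ) (hε : 0 < ε) :
    ∃ C : ℝ, ∀ z α : Qb, DegreeLe K d z → IsIntegral ℤ z → IsMultiple Γ A 1 z α →
      ((A.natDegree : ℝ) - (2 * d - 1) * m - ε) * h z - C ≤ h α := by
  have hfd := fd_map K
  obtain ⟨C, -, hC⟩ := Pool.Agent.H594.WI.poly_height Γ hΓ (K.map sgA) d hd (A.map sg)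
    (alg_map A) ((Polynomial.map_ne_zero_iff sg_inj).2 hA) m hm0 (mult_map A hA m hm) ε hε
  refine ⟨C, fun z α hz hi ⟨hAz, hBz, γ, hγ, hα⟩ => ?_⟩
  have hγ0 : (γ : Qb) ≠ 0 := γ.ne_zero
  have h3 := hC (sg z) (degLe_map hz) (hi.map sg.toIntAlgHom)
    (by rw [Polynomial.eval_map_apply]; exact (map_ne_zero sg).2 hAz) γ⁻¹ (by
      obtain ⟨n, hn, hγn⟩ := hγ
      refine ⟨n, hn, ?_⟩
      show (γ⁻¹) ^ n ∈ Γ
      rw [inv_pow]
      exact Γ.inv_mem hγn) (sg α⁻¹) (by
      rw [Polynomial.eval_map_apply, ← map_mul, hα, Polynomial.eval_one, div_one]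
      congr 1
      rw [Units.val_inv_eq_inv_val]
      field_simp)
  simp only [Polynomial.natDegree_map] at h3
  rw [Pool.Agent.H594.WI.ht_sg, Pool.Agent.H594.WI.ht_sg, h1_inv, ← abs_eq, ← abs_eq] at h3
  exact h3

/-- several rational functions -/
theorem multi (Γ : Subgroup Qbˣ) (hΓ : Γ.FG) (K : IntermediateField ℚ Qb)
    [FiniteDimensional ℚ K] (d : ℕ) (hd : 1 ≤ d) {k : ℕ} (A B : Fin k → Polynomial Qb)
    (hA : ∀ j, A j ≠ 0) (hB : ∀ j, B j ≠ 0) (hAB : Separate A B) (ε : ℝ) (hε : 0 < ε) :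
    ∃ C : ℝ, ∀ z : Qb, DegreeLe K d z → ∀ (e : Fin k → ℤ) (r : ℕ) (α : Qb),
      IsMonomial Γ A B z e r α → ∀ m : ℕ, (∀ j, |e j| ≤ m) →
      ((∑ j, |(e j : ℝ)| * (((A j).natDegree : ℝ) + (B j).natDegree)) / 2 - (d + ε) * m) * h z -
        C * m ≤ r * h α ∧
      (IsIntegral ℤ z →
        ((∑ j, |(e j : ℝ)| * (((A j).natDegree : ℝ) + (B j).natDegree)) / 2 -
          (d - 1 / 2 + ε) * m) * h z - C * m ≤ r * h α) := by
  classical
  have hfd := fd_map K
  have hA' : ∀ j, (A j).map sg ≠ 0 := fun j => (Polynomial.map_ne_zero_iff sg_inj).2 (hA j)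
  have hB' : ∀ j, (B j).map sg ≠ 0 := fun j => (Polynomial.map_ne_zero_iff sg_inj).2 (hB j)
  have hdis : ∀ a : ℂ, ∑ j, (((A j).map sg).rootMultiplicity a +
      ((B j).map sg).rootMultiplicity a) ≤ 1 := by
    intro a
    by_cases ha : IsAlgebraic ℚ a
    · obtain ⟨a', rfl⟩ := exists_sg ha
      simp only [← Polynomial.eq_rootMultiplicity_map sg_inj]
      exact hAB a'
    · have h0 : ∀ P : Polynomial Qb, P ≠ 0 → (P.map sg).rootMultiplicity a = 0 := by
        intro P hP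
        refine Polynomial.rootMultiplicity_eq_zero fun hr => ha ?_
        exact root_alg (alg_map P) ((Polynomial.mem_roots
          ((Polynomial.map_ne_zero_iff sg_inj).2 hP)).2 hr)
      rw [Finset.sum_eq_zero fun j _ => by rw [h0 _ (hA j), h0 _ (hB j), add_zero]]
      exact Nat.zero_le _
  obtain ⟨R, C, hC0, hRA, hRB, hC⟩ := Pool.Agent.H594.WI.multi_height Γ hΓ (K.map sgA) d hd
    (fun j => (A j).map sg) (fun j => (B j).map sg) (fun j => alg_map _) (fun j => alg_map _)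
    hA' hB' (2 * ε) (by positivity)
  refine ⟨C / 2, fun z hz e r α ⟨hAB0, γ, hγ, hα⟩ m hm => ?_⟩
  have hγ0 : (γ : Qb) ≠ 0 := γ.ne_zero
  have hmR : ∀ j, |(e j : ℝ)| ≤ m := fun j => by
    have := hm j
    exact_mod_cast this
  have hP : ∏ j, ((A j).eval z / (B j).eval z) ^ e j ≠ 0 :=
    Finset.prod_ne_zero_iff.2 fun j _ => zpow_ne_zero _ (div_ne_zero (hAB0 j).1 (hAB0 j).2)
  obtain ⟨h1, h2⟩ := hC (sg z) (degLe_map hz)
    (fun j => by
      show ((A j).map sg).eval (sg z) ≠ 0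
      rw [Polynomial.eval_map_apply]
      exact (map_ne_zero sg).2 (hAB0 j).1)
    (fun j => by
      show ((B j).map sg).eval (sg z) ≠ 0
      rw [Polynomial.eval_map_apply]
      exact (map_ne_zero sg).2 (hAB0 j).2)
    e γ⁻¹ (by
      obtain ⟨n, hn, hγn⟩ := hγ
      refine ⟨n, hn, ?_⟩
      show (γ⁻¹) ^ n ∈ Γ
      rw [inv_pow]
      exact Γ.inv_mem hγn) (sg (α ^ r)⁻¹) (by
      have e1 : ∏ j, (((A j).map sg).eval (sg z) / ((B j).map sg).eval (sg z)) ^ e j =
          sg (∏ j, ((A j).eval z / (B j).eval z) ^ e j) := by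
        rw [map_prod]
        refine Finset.prod_congr rfl fun j _ => ?_
        rw [map_zpow₀, Polynomial.eval_map_apply, Polynomial.eval_map_apply, ← map_div₀]
      rw [e1, ← map_mul, hα]
      congr 1
      rw [Units.val_inv_eq_inv_val]
      field_simp) (1 / 2) (m / 2) (by norm_num) (by norm_num) (by positivity)
  rw [Pool.Agent.H594.WI.ht_sg, Pool.Agent.H594.WI.ht_sg, h1_inv, h1_pow, ← abs_eq,
    ← abs_eq] at h1 h2
  -- the sum over the zeros and poles
  have habs : ∀ a, |((∑ j, e j * Pool.Agent.H594.KP.ord ((A j).map sg) ((B j).map sg) a : ℤ) : ℝ)| =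
      ∑ j, |(e j : ℝ)| * ((((A j).map sg).rootMultiplicity a +
        ((B j).map sg).rootMultiplicity a : ℕ) : ℝ) ∧
      |((∑ j, e j * Pool.Agent.H594.KP.ord ((A j).map sg) ((B j).map sg) a : ℤ) : ℝ)| ≤ m := by
    intro a
    by_cases hall : ∀ j, ((A j).map sg).rootMultiplicity a + ((B j).map sg).rootMultiplicity a = 0
    · have h3 : ∀ j, Pool.Agent.H594.KP.ord ((A j).map sg) ((B j).map sg) a = 0 := by
        intro j
        have h4 := hall j
        unfold Pool.Agent.H594.KP.ord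
        omega
      constructor
      · simp [h3, hall]
      · simp only [h3, mul_zero, Finset.sum_const_zero, Int.cast_zero, abs_zero]
        positivity
    · push Not at hall
      obtain ⟨i, hi⟩ := hall
      have hle := hdis a
      rw [← Finset.add_sum_erase _ _ (Finset.mem_univ i)] at hle
      have hi1 : ((A i).map sg).rootMultiplicity a + ((B i).map sg).rootMultiplicity a = 1 := by
        omega
      have hother : ∀ j, j ≠ i →
          ((A j).map sg).rootMultiplicity a + ((B j).map sg).rootMultiplicity a = 0 := by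
        intro j hj
        have h3 : ∑ j ∈ Finset.univ.erase i,
            (((A j).map sg).rootMultiplicity a + ((B j).map sg).rootMultiplicity a) = 0 := by omega
        exact Finset.sum_eq_zero_iff.1 h3 j (Finset.mem_erase.2 ⟨hj, Finset.mem_univ j⟩)
      have hord : ∀ j, j ≠ i → Pool.Agent.H594.KP.ord ((A j).map sg) ((B j).map sg) a = 0 := by
        intro j hj
        have h4 := hother j hj
        unfold Pool.Agent.H594.KP.ord
        omega
      have hordi : |(Pool.Agent.H594.KP.ord ((A i).map sg) ((B i).map sg) a : ℝ)| = 1 := by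
        have h4 : Pool.Agent.H594.KP.ord ((A i).map sg) ((B i).map sg) a = 1 ∨
            Pool.Agent.H594.KP.ord ((A i).map sg) ((B i).map sg) a = -1 := by
          unfold Pool.Agent.H594.KP.ord
          omega
        rcases h4 with h4 | h4
        · rw [h4]
          norm_num
        · rw [h4]
          norm_num
      have e1 : ∑ j, e j * Pool.Agent.H594.KP.ord ((A j).map sg) ((B j).map sg) a =
          e i * Pool.Agent.H594.KP.ord ((A i).map sg) ((B i).map sg) a := by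
        rw [Finset.sum_eq_single i]
        · intro j _ hj
          rw [hord j hj, mul_zero]
        · intro h
          exact absurd (Finset.mem_univ i) h
      have e2 : ∑ j, |(e j : ℝ)| * ((((A j).map sg).rootMultiplicity a +
          ((B j).map sg).rootMultiplicity a : ℕ) : ℝ) = |(e i : ℝ)| := by
        rw [Finset.sum_eq_single i]
        · rw [hi1]
          push_cast
          ring
        · intro j _ hj
          rw [hother j hj]
          push_cast
          ring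
        · intro h
          exact absurd (Finset.mem_univ i) h
      rw [e1, e2]
      push_cast
      rw [abs_mul, hordi, mul_one]
      exact ⟨rfl, hmR i⟩
  have hS : ∑ a ∈ R, min (Pool.Agent.H594.WI.pm (1 / 2)
      (∑ j, e j * Pool.Agent.H594.KP.ord ((A j).map sg) ((B j).map sg) a)) ((m : ℝ) / 2) =
      (∑ j, |(e j : ℝ)| * (((A j).natDegree : ℝ) + (B j).natDegree)) / 2 := by
    have h3 : ∀ a ∈ R, min (Pool.Agent.H594.WI.pm (1 / 2)
        (∑ j, e j * Pool.Agent.H594.KP.ord ((A j).map sg) ((B j).map sg) a)) ((m : ℝ) / 2) =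
        (∑ j, |(e j : ℝ)| * ((((A j).map sg).rootMultiplicity a +
          ((B j).map sg).rootMultiplicity a : ℕ) : ℝ)) / 2 := by
      intro a _
      rw [Pool.Agent.H594.WI.pm_half, min_eq_left (by linarith [(habs a).2]), (habs a).1]
    rw [Finset.sum_congr rfl h3, ← Finset.sum_div, Finset.sum_comm]
    congr 1
    refine Finset.sum_congr rfl fun j _ => ?_
    rw [← Finset.mul_sum]
    congr 1
    have h4 := Pool.Agent.H594.BD.sum_mult ((A j).map sg) R (hRA j)
    have h5 := Pool.Agent.H594.BD.sum_mult ((B j).map sg) R (hRB j)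
    rw [Polynomial.natDegree_map] at h4 h5
    rw [← h4, ← h5]
    push_cast
    rw [Finset.sum_add_distrib]
  have hpm0 : 0 ≤ min (Pool.Agent.H594.WI.pm (1 / 2)
      (∑ j, e j * ((((B j).map sg).natDegree : ℤ) - ((A j).map sg).natDegree)))
      ((m : ℝ) / 2) := by
    refine le_min ?_ (by positivity)
    rw [Pool.Agent.H594.WI.pm_half]
    positivity
  have hz0 := h_nonneg z
  rw [hS] at h1 h2
  constructor
  · refine le_trans ?_ h1
    have h3 := mul_nonneg hpm0 hz0
    nlinarith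
  · intro hi
    refine le_trans (le_of_eq ?_) (h2 (hi.map sg.toIntAlgHom))
    ring

/-- from inequalities to finiteness -/
theorem finite_of (K : IntermediateField ℚ Qb) [FiniteDimensional ℚ K] (d : ℕ) (c C : ℝ)
    (hc : 0 < c) (S : Set Qb) (hS : ∀ z ∈ S, DegreeLe K d z ∧ c * h z ≤ C) : S.Finite := by
  refine (northcott K d (C / c)).subset ?_
  intro z hz
  obtain ⟨h1, h2⟩ := hS z hz
  refine ⟨h1, ?_⟩
  rw [le_div_iff₀ hc]
  linarith

theorem key {k : ℕ} {e : Fin k → ℤ} (he : e ≠ 0) {N : ℕ} {w : Fin k → ℝ}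
    (hw : ∀ j, (N : ℝ) ≤ w j) {x κ T t C ρ : ℝ} (hx : 0 ≤ x) (hκ : 0 ≤ κ * x + T)
    (hyp : ∀ m : ℕ, (∀ j, |e j| ≤ m) →
      ((∑ j, |(e j : ℝ)| * w j) / 2 - t * m) * x - C * m ≤ ρ)
    (j : Fin k) (hle : ρ ≤ |(e j : ℝ)| * (κ * x + T)) : (N / 2 - t - κ) * x ≤ C + T := by
  obtain ⟨j₁, hj₁⟩ : ∃ j, e j ≠ 0 := by
    by_contra h
    push Not at h
    exact he (funext h)
  obtain ⟨j₀, -, hj₀⟩ := Finset.exists_max_image (Finset.univ : Finset (Fin k))
    (fun j => |e j|) ⟨j₁, Finset.mem_univ _⟩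
  obtain ⟨m, hm⟩ : ∃ m : ℕ, |e j₀| = m := ⟨(e j₀).natAbs, Int.abs_eq_natAbs _⟩
  have hmle : ∀ i, |e i| ≤ m := fun i => by
    rw [← hm]
    exact hj₀ i (Finset.mem_univ i)
  have hm1 : (1 : ℝ) ≤ m := by
    have h1 : 1 ≤ |e j₁| := Int.one_le_abs hj₁
    have h2 := hmle j₁
    have h3 : (1 : ℤ) ≤ m := le_trans h1 h2
    exact_mod_cast h3
  have hw0 : ∀ i, 0 ≤ w i := fun i => le_trans (Nat.cast_nonneg N) (hw i)
  have h1 := hyp m hmle
  have h2 : (m : ℝ) * N ≤ ∑ j, |(e j : ℝ)| * w j := by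
    have h3 : |(e j₀ : ℝ)| = m := by exact_mod_cast hm
    calc (m : ℝ) * N ≤ |(e j₀ : ℝ)| * w j₀ := by
          rw [h3]
          exact mul_le_mul_of_nonneg_left (hw j₀) (Nat.cast_nonneg m)
      _ ≤ _ := Finset.single_le_sum (f := fun j => |(e j : ℝ)| * w j)
          (fun i _ => mul_nonneg (abs_nonneg _) (hw0 i)) (Finset.mem_univ j₀)
  have h4 : |(e j : ℝ)| * (κ * x + T) ≤ m * (κ * x + T) :=
    mul_le_mul_of_nonneg_right (by exact_mod_cast hmle j) hκ
  have h5 : ((m : ℝ) * N) * x ≤ (∑ j, |(e j : ℝ)| * w j) * x := mul_le_mul_of_nonneg_right h2 hx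
  have h6 : (m : ℝ) * ((N / 2 - t - κ) * x) ≤ m * (C + T) := by nlinarith
  exact le_of_mul_le_mul_left h6 (by linarith)

/-- **Main result.** -/
theorem result (Γ : Subgroup Qbˣ) (hΓ : Γ.FG) (K : IntermediateField ℚ Qb)
    [FiniteDimensional ℚ K] (d : ℕ) (hd : 1 ≤ d) :
    -- one rational function
    (∀ A B : Polynomial Qb, A ≠ 0 → B ≠ 0 → IsCoprime A B → ∀ m m' : ℕ, 1 ≤ m → 1 ≤ m' →
      (∀ a, A.rootMultiplicity a ≤ m) → B.natDegree - A.natDegree ≤ m →
      (∀ a, B.rootMultiplicity a ≤ m') → A.natDegree - B.natDegree ≤ m' →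
      (∀ ε : ℝ, 0 < ε → ∃ C : ℝ, ∀ z α : Qb, DegreeLe K d z → IsMultiple Γ A B z α →
        (max (A.natDegree : ℝ) B.natDegree - 2 * d * (m * m' / (m + m')) - ε) * h z - C ≤ h α) ∧
      ∀ κ T : ℝ, κ < max (A.natDegree : ℝ) B.natDegree - 2 * d * (m * m' / (m + m')) →
        {z : Qb | DegreeLe K d z ∧ ∃ α : Qb, IsMultiple Γ A B z α ∧
          deg Γ α * h α ≤ κ * h z + T}.Finite) ∧
    -- polynomials at algebraic integers
    (∀ A : Polynomial Qb, A ≠ 0 → ∀ m : ℕ, 1 ≤ m → (∀ a, A.rootMultiplicity a ≤ m) →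
      (∀ ε : ℝ, 0 < ε → ∃ C : ℝ, ∀ z α : Qb, DegreeLe K d z → IsIntegral ℤ z →
        IsMultiple Γ A 1 z α → ((A.natDegree : ℝ) - (2 * d - 1) * m - ε) * h z - C ≤ h α) ∧
      ∀ κ T : ℝ, κ < (A.natDegree : ℝ) - (2 * d - 1) * m →
        {z : Qb | DegreeLe K d z ∧ IsIntegral ℤ z ∧ ∃ α : Qb, IsMultiple Γ A 1 z α ∧
          deg Γ α * h α ≤ κ * h z + T}.Finite) ∧
    -- several rational functions
    ∀ (k : ℕ) (A B : Fin k → Polynomial Qb), (∀ j, A j ≠ 0) → (∀ j, B j ≠ 0) → Separate A B →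
      (∀ ε : ℝ, 0 < ε → ∃ C : ℝ, ∀ z : Qb, DegreeLe K d z → ∀ (e : Fin k → ℤ) (r : ℕ) (α : Qb),
        IsMonomial Γ A B z e r α → ∀ m : ℕ, (∀ j, |e j| ≤ m) →
        ((∑ j, |(e j : ℝ)| * (((A j).natDegree : ℝ) + (B j).natDegree)) / 2 - (d + ε) * m) * h z -
          C * m ≤ r * h α ∧
        (IsIntegral ℤ z →
          ((∑ j, |(e j : ℝ)| * (((A j).natDegree : ℝ) + (B j).natDegree)) / 2 -
            (d - 1 / 2 + ε) * m) * h z - C * m ≤ r * h α)) ∧
      ∀ N : ℕ, (∀ j, N ≤ (A j).natDegree + (B j).natDegree) → ∀ κ T : ℝ, 0 ≤ κ → 0 ≤ T →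
        ∃ E : Set Qb, E.Finite ∧ ∀ z ∉ E, DegreeLe K d z →
          (κ < (N : ℝ) / 2 - d ∨ (IsIntegral ℤ z ∧ κ < (N : ℝ) / 2 - (d - 1 / 2))) →
          ∀ e : Fin k → ℤ, e ≠ 0 → ∀ (r : ℕ) (α : Qb), IsMonomial Γ A B z e r α →
            ¬ IsMonomial Γ A B z e r 1 ∧
            (∀ j, |(e j : ℝ)| * (κ * h z + T) < r * h α) ∧
            (r = 1 → κ * h z + T < deg Γ α * h α) := by
  refine ⟨fun A B hA hB hAB m m' hm0 hm0' hm hmi hm' hmi' => ?_, fun A hA m hm0 hm => ?_,
    fun k A B hA hB hAB => ?_⟩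
  · have h1 := one Γ hΓ K d hd A B hA hB hAB m m' hm0 hm0' hm hmi hm' hmi'
    refine ⟨h1, fun κ T hκ => ?_⟩
    obtain ⟨C, hC⟩ := h1 ((max (A.natDegree : ℝ) B.natDegree - 2 * d * (m * m' / (m + m')) - κ) / 2)
      (by linarith)
    refine finite_of K d
      ((max (A.natDegree : ℝ) B.natDegree - 2 * d * (m * m' / (m + m')) - κ) / 2) (C + T)
      (by linarith) _ ?_
    rintro z ⟨hz, α, hα, hle⟩
    refine ⟨hz, ?_⟩
    have h2 := hC z α hz hα
    have h3 := le_deg_mul Γ α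
    linarith
  · have h1 := pol Γ hΓ K d hd A hA m hm0 hm
    refine ⟨h1, fun κ T hκ => ?_⟩
    obtain ⟨C, hC⟩ := h1 (((A.natDegree : ℝ) - (2 * d - 1) * m - κ) / 2) (by linarith)
    refine finite_of K d (((A.natDegree : ℝ) - (2 * d - 1) * m - κ) / 2) (C + T)
      (by linarith) _ ?_
    rintro z ⟨hz, hi, α, hα, hle⟩
    refine ⟨hz, ?_⟩
    have h2 := hC z α hz hi hα
    have h3 := le_deg_mul Γ α
    linarith
  · have h1 := multi Γ hΓ K d hd A B hA hB hAB
    refine ⟨h1, fun N hN κ T hκ hT => ?_⟩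
    have hNR : ∀ j, (N : ℝ) ≤ ((A j).natDegree : ℝ) + (B j).natDegree := fun j => by
      exact_mod_cast hN j
    let bad : Qb → Prop := fun z => ∃ e : Fin k → ℤ, e ≠ 0 ∧ ∃ (r : ℕ) (α : Qb),
      IsMonomial Γ A B z e r α ∧ ∃ j, r * h α ≤ |(e j : ℝ)| * (κ * h z + T)
    have hE1 : κ < (N : ℝ) / 2 - d → {z | DegreeLe K d z ∧ bad z}.Finite := by
      intro hlt
      obtain ⟨C, hC⟩ := h1 (((N : ℝ) / 2 - d - κ) / 2) (by linarith)
      refine finite_of K d (((N : ℝ) / 2 - d - κ) / 2) (C + T) (by linarith) _ ?_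
      rintro z ⟨hz, e, he, r, α, hα, j, hj⟩
      refine ⟨hz, ?_⟩
      have h2 := key he hNR (h_nonneg z) (κ := κ) (T := T)
        (add_nonneg (mul_nonneg hκ (h_nonneg z)) hT)
        (fun m hm => (hC z hz e r α hα m hm).1) j hj
      refine le_trans (le_of_eq ?_) h2
      ring
    have hE2 : κ < (N : ℝ) / 2 - (d - 1 / 2) →
        {z | DegreeLe K d z ∧ IsIntegral ℤ z ∧ bad z}.Finite := by
      intro hlt
      obtain ⟨C, hC⟩ := h1 (((N : ℝ) / 2 - (d - 1 / 2) - κ) / 2) (by linarith)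
      refine finite_of K d (((N : ℝ) / 2 - (d - 1 / 2) - κ) / 2) (C + T) (by linarith) _ ?_
      rintro z ⟨hz, hi, e, he, r, α, hα, j, hj⟩
      refine ⟨hz, ?_⟩
      have h2 := key he hNR (h_nonneg z) (κ := κ) (T := T)
        (add_nonneg (mul_nonneg hκ (h_nonneg z)) hT)
        (fun m hm => (hC z hz e r α hα m hm).2 hi) j hj
      refine le_trans (le_of_eq ?_) h2
      ring
    have hfin : {z | DegreeLe K d z ∧ (κ < (N : ℝ) / 2 - d ∨
        (IsIntegral ℤ z ∧ κ < (N : ℝ) / 2 - (d - 1 / 2))) ∧ bad z}.Finite := by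
      by_cases hlt : κ < (N : ℝ) / 2 - d
      · exact (hE1 hlt).subset fun z hz => ⟨hz.1, hz.2.2⟩
      · by_cases hlt2 : κ < (N : ℝ) / 2 - (d - 1 / 2)
        · exact (hE2 hlt2).subset fun z hz => ⟨hz.1, (hz.2.1.resolve_left hlt).1, hz.2.2⟩
        · refine Set.Finite.subset Set.finite_empty ?_
          rintro z ⟨-, h2, -⟩
          rcases h2 with h2 | h2
          · exact absurd h2 hlt
          · exact absurd h2.2 hlt2
    refine ⟨_, hfin, fun z hz hzd hor e he r α hα => ?_⟩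
    have hgood : ∀ (r : ℕ) (α : Qb), IsMonomial Γ A B z e r α →
        ∀ j, |(e j : ℝ)| * (κ * h z + T) < r * h α := by
      intro r α hα j
      by_contra hcon
      exact hz ⟨hzd, hor, e, he, r, α, hα, j, not_lt.1 hcon⟩
    obtain ⟨j₁, hj₁⟩ : ∃ j, e j ≠ 0 := by
      by_contra h
      push Not at h
      exact he (funext h)
    have hnn : 0 ≤ κ * h z + T := add_nonneg (mul_nonneg hκ (h_nonneg z)) hT
    refine ⟨fun hone => ?_, hgood r α hα, fun hr => ?_⟩
    · have h2 := hgood r 1 hone j₁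
      have h3 : h (1 : Qb) = 0 := by
        have h4 := h1_pow (1 : Qb) 0
        rw [pow_zero, Nat.cast_zero, zero_mul] at h4
        rw [abs_eq, h4]
      rw [h3, mul_zero] at h2
      exact absurd h2 (not_lt.2 (mul_nonneg (abs_nonneg _) hnn))
    · subst hr
      have h2 := hgood 1 α hα j₁
      rw [Nat.cast_one, one_mul] at h2
      have h3 : (1 : ℝ) ≤ |(e j₁ : ℝ)| := by
        have h4 : 1 ≤ |e j₁| := Int.one_le_abs hj₁
        exact_mod_cast h4
      have h5 := le_deg_mul Γ α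
      nlinarith

end Pool.Agent.Results.MP_f61260_nt.ValuesOfFunctions
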